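import Pool.Agent.Run7.h474.Link

set_option autoImplicit false

/-!
# Sacks indestructible MAD families from `𝔰 ≤ 𝔟`

We prove in ZFC: if the splitting number is at most the bounding number, then there is a MAD
family which stays maximal after forcing with perfect subtrees of the binary tree.
No bound such as `𝔟 < ℵ_ω` is needed. The definitions are in `Pool.Agent.Run7.h474.SacksDefs`.
-/

open Run7.h474.SacksMAD in
/-- **Theorem.** If `𝔰 ≤ 𝔟`, then there is a Sacks indestructible MAD family. -/
theorem Pool.Agent.Results.MP_9abc7c_lc.SacksIndestructibleMAD.result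
    (h : splittingNumber ≤ boundingNumber) : ∃ A : Set (Set ℕ), SacksIndestructible A := by
  obtain ⟨A, hA⟩ := Run7.h474.exists_SInd h
  exact ⟨A, sacksIndestructible_of_SInd hA⟩
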